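import Mathlib

/-!
# TRO: the cube lemma (helper16)

For injective sums (or symmetric sums) with the recursion
`J (c, x) = z c * J x - ∑ i, J (x + c 1_i)` the alternating sum over the cube
`(c - 2 |S|, x + 2 * 1_S)` is `∑ S, (-1) ^ |S| z (c - 2 |S|) J (x + 2 * 1_S)`.
-/

set_option autoImplicit false

open Finset

namespace Pool.Agent.TRO

/-- `x + 2 * 1_S` -/
def up {k : ℕ} (x : Fin k → ℕ) (S : Finset (Fin k)) : Fin k → ℕ :=
  fun i => if i ∈ S then x i + 2 else x i

/-- the sum over all `S` of `(-1) ^ |S| h S` vanishes if `h S` does not depend on `i ∈ S` -/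
theorem alt_sum_zero {k : ℕ} (i : Fin k) (h : Finset (Fin k) → ℝ)
    (hh : ∀ S : Finset (Fin k), i ∉ S → h (insert i S) = h S) :
    ∑ S : Finset (Fin k), (-1 : ℝ) ^ S.card * h S = 0 := by
  classical
  refine Finset.sum_involution (fun S _ => if i ∈ S then S.erase i else insert i S) ?_ ?_ ?_ ?_
  · intro S _
    by_cases hi : i ∈ S
    · simp only [hi, if_true]
      have h1 := hh (S.erase i) (Finset.notMem_erase i S)
      rw [Finset.insert_erase hi] at h1
      have h2 : S.card = (S.erase i).card + 1 := by
        rw [Finset.card_erase_of_mem hi]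
        have := Finset.card_pos.2 ⟨i, hi⟩
        omega
      rw [h1, h2, pow_succ]
      ring
    · simp only [hi, if_false]
      rw [hh S hi, Finset.card_insert_of_notMem hi, pow_succ]
      ring
  · intro S _ _
    by_cases hi : i ∈ S
    · simp only [hi, if_true]
      intro h1
      rw [← h1] at hi
      exact Finset.notMem_erase i S hi
    · simp only [hi, if_false]
      intro h1
      apply hi
      rw [← h1]
      exact Finset.mem_insert_self i S
  · intro S _
    exact Finset.mem_univ _
  · intro S _
    by_cases hi : i ∈ S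
    · simp only [hi, if_true, Finset.notMem_erase, if_false]
      exact Finset.insert_erase hi
    · simp only [hi, if_false, Finset.mem_insert_self, if_true]
      exact Finset.erase_insert hi

/-- **the cube lemma** -/
theorem cube {k : ℕ} (J1 : (Fin (k + 1) → ℕ) → ℝ) (J0 : (Fin k → ℕ) → ℝ) (z : ℕ → ℝ)
    (hrec : ∀ (c : ℕ) (x : Fin k → ℕ), 2 ≤ c → (∀ i, 2 ≤ x i) →
      J1 (Fin.cons c x) = z c * J0 x - ∑ i, J0 (Function.update x i (x i + c)))
    (c : ℕ) (x : Fin k → ℕ) (hc : 2 * k + 2 ≤ c) (hx : ∀ i, 2 ≤ x i) :
    ∑ S : Finset (Fin k), (-1 : ℝ) ^ S.card * J1 (Fin.cons (c - 2 * S.card) (up x S)) =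
      ∑ S : Finset (Fin k), (-1 : ℝ) ^ S.card * (z (c - 2 * S.card) * J0 (up x S)) := by
  classical
  have hS : ∀ S : Finset (Fin k), S.card ≤ k := fun S => by
    have := Finset.card_le_univ S
    simpa using this
  have hup : ∀ (S : Finset (Fin k)) i, 2 ≤ up x S i := by
    intro S i
    have := hx i
    unfold up
    split_ifs <;> omega
  have h1 : ∀ S : Finset (Fin k), (-1 : ℝ) ^ S.card * J1 (Fin.cons (c - 2 * S.card) (up x S)) =
      (-1 : ℝ) ^ S.card * (z (c - 2 * S.card) * J0 (up x S)) -
        ∑ i, (-1 : ℝ) ^ S.card *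
          J0 (Function.update (up x S) i (up x S i + (c - 2 * S.card))) := by
    intro S
    rw [hrec _ _ (by have := hS S; omega) (hup S), mul_sub, Finset.mul_sum]
  rw [Finset.sum_congr rfl fun S _ => h1 S, Finset.sum_sub_distrib, Finset.sum_comm]
  have h2 : ∀ i : Fin k, ∑ S : Finset (Fin k), (-1 : ℝ) ^ S.card *
      J0 (Function.update (up x S) i (up x S i + (c - 2 * S.card))) = 0 := by
    intro i
    apply alt_sum_zero i (fun S => J0 (Function.update (up x S) i (up x S i + (c - 2 * S.card))))
    intro S hi
    have hcard := Finset.card_insert_of_notMem hi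
    have hle := hS (insert i S)
    congr 1
    have e1 : up x (insert i S) i + (c - 2 * (insert i S).card) = up x S i + (c - 2 * S.card) := by
      unfold up
      rw [if_pos (Finset.mem_insert_self i S), if_neg hi, hcard]
      omega
    rw [e1]
    funext j
    by_cases hj : j = i
    · subst hj
      rw [Function.update_self, Function.update_self]
    · rw [Function.update_of_ne hj, Function.update_of_ne hj]
      unfold up
      have : j ∈ insert i S ↔ j ∈ S := by
        rw [Finset.mem_insert]
        exact ⟨fun h => h.resolve_left hj, Or.inr⟩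
      simp only [this]
  rw [Finset.sum_congr rfl fun i _ => h2 i, Finset.sum_const_zero, sub_zero]

end Pool.Agent.TRO
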