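import Mathlib

/-!
# TRO: the tropical pigeonhole

If `∑ j, c j * v j ^ e i * E i j = 0` for as many exponents `e i`, far apart, as there are distinct
`v j > 0`, and all `E i j` are near `1`, then `c = 0`.
-/

set_option autoImplicit false

namespace Pool.Agent.TRO

open Finset

/-- general weights `W i j > 0`; `v` orders the columns -/
theorem trop_gen {ι : Type*} [Fintype ι] (v : ι → ℝ)
    (hinj : Function.Injective v) (N : ℕ) (hN : Fintype.card ι ≤ N) (W : ℕ → ι → ℝ)
    (hW : ∀ i j, i < N → 0 < W i j)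
    (E : ℕ → ι → ℝ) (hE : ∀ i j, i < N → |E i j - 1| ≤ 1 / 2) (D : ℝ)
    (hD : 3 * (Fintype.card ι : ℝ) ≤ D)
    (hgap : ∀ i, i + 1 < N → ∀ j j', v j < v j' →
      D ^ 2 * (W (i + 1) j * W i j') < W (i + 1) j' * W i j)
    (c : ι → ℝ) (hc : ∀ i < N, ∑ j, c j * W i j * E i j = 0) : c = 0 := by
  classical
  by_contra hne
  obtain ⟨j₀, hj₀⟩ : ∃ j, c j ≠ 0 := by
    by_contra h
    push Not at h
    exact hne (funext h)
  have hcard : 1 ≤ Fintype.card ι := Fintype.card_pos_iff.2 ⟨j₀⟩
  have hcardR : (1 : ℝ) ≤ Fintype.card ι := by exact_mod_cast hcard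
  have hD0 : 0 < D := by linarith
  obtain ⟨w, hw⟩ : ∃ w : ℕ → ι → ℝ, ∀ i j, w i j = |c j| * W i j := ⟨_, fun _ _ => rfl⟩
  have hw0 : ∀ i j, i < N → 0 ≤ w i j := fun i j hi => by
    rw [hw]
    exact mul_nonneg (abs_nonneg _) (hW i j hi).le
  -- two terms of every row are near the maximum
  have pair : ∀ i < N, ∃ a b, v a < v b ∧ (∀ j, w i j ≤ D * w i a) ∧ (∀ j, w i j ≤ D * w i b) ∧
      0 < w i b := by
    intro i hi
    obtain ⟨m, -, hm⟩ := exists_max_image univ (w i) ⟨j₀, mem_univ _⟩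
    have hmpos : 0 < w i m := by
      refine lt_of_lt_of_le ?_ (hm j₀ (mem_univ _))
      rw [hw]
      exact mul_pos (abs_pos.2 hj₀) (hW i j₀ hi)
    obtain ⟨n, hnm, hn⟩ : ∃ n, n ≠ m ∧ w i m ≤ D * w i n := by
      by_contra hcon
      push Not at hcon
      have h1 := hc i hi
      rw [← add_sum_erase univ _ (mem_univ m)] at h1
      have h2 : |c m * W i m * E i m| = |∑ j ∈ univ.erase m, c j * W i j * E i j| := by
        rw [eq_neg_of_add_eq_zero_left h1, abs_neg]
      have h3 : ∀ j, |c j * W i j * E i j| = w i j * |E i j| := fun j => by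
        rw [abs_mul, abs_mul, hw, abs_of_pos (hW i j hi)]
      have hE1 : ∀ j, |E i j| ≤ 3 / 2 := fun j => by
        have h := abs_le.1 (hE i j hi)
        rw [abs_le]
        constructor <;> linarith [h.1, h.2]
      have hE2 : 1 / 2 ≤ |E i m| := by
        have h := abs_le.1 (hE i m hi)
        exact le_trans (by linarith [h.1]) (le_abs_self _)
      have h4 : |∑ j ∈ univ.erase m, c j * W i j * E i j| ≤
          ∑ j ∈ univ.erase m, (3 / 2) * (w i m / D) := by
        refine (abs_sum_le_sum_abs _ _).trans (sum_le_sum fun j hj => ?_)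
        rw [h3, mul_comm (3 / 2 : ℝ)]
        have h5 := hcon j (ne_of_mem_erase hj)
        refine mul_le_mul ?_ (hE1 j) (abs_nonneg _) (by positivity)
        rw [le_div_iff₀ hD0, mul_comm]
        exact h5.le
      rw [sum_const, card_erase_of_mem (mem_univ m), card_univ, nsmul_eq_mul,
        Nat.cast_sub hcard, Nat.cast_one] at h4
      have h6 : w i m * (1 / 2) ≤ |c m * W i m * E i m| := by
        rw [h3]
        exact mul_le_mul_of_nonneg_left hE2 (hw0 i m hi)
      rw [h2] at h6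
      have h7 : ((Fintype.card ι : ℝ) - 1) * (3 / 2 * (w i m / D)) < w i m * (1 / 2) := by
        have h8 : w i m / D * D = w i m := div_mul_cancel₀ _ hD0.ne'
        have h9 : 0 < w i m / D := div_pos hmpos hD0
        nlinarith
      linarith
    have hnpos : 0 < w i n := by
      by_contra h
      have h1 : w i n ≤ 0 := not_lt.1 h
      nlinarith
    have hn' : ∀ j, w i j ≤ D * w i n := fun j => (hm j (mem_univ j)).trans hn
    have hm' : ∀ j, w i j ≤ D * w i m := fun j => by
      have h1 := hm j (mem_univ j)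
      nlinarith [hw0 i m hi]
    rcases lt_or_gt_of_ne (fun h => hnm (hinj h)) with h | h
    · exact ⟨n, m, h, hn', hm', hmpos⟩
    · exact ⟨m, n, h, hm', hn', hnpos⟩
  -- the rank
  obtain ⟨R, hR⟩ : ∃ R : ι → ℕ, ∀ a, R a = (univ.filter fun j => v j < v a).card :=
    ⟨_, fun _ => rfl⟩
  have Rlt : ∀ a b, v a < v b → R a < R b := by
    intro a b hab
    rw [hR, hR]
    refine card_lt_card ?_
    rw [ssubset_iff_of_subset]
    · exact ⟨a, by simpa using hab, by simp⟩
    · intro j hj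
      rw [mem_filter] at hj ⊢
      exact ⟨hj.1, hj.2.trans hab⟩
  have Rle : ∀ a b, v a ≤ v b → R a ≤ R b := by
    intro a b hab
    rw [hR, hR]
    refine card_le_card fun j hj => ?_
    rw [mem_filter] at hj ⊢
    exact ⟨hj.1, hj.2.trans_le hab⟩
  have chain : ∀ i, i < N → ∀ a, (∀ j, w i j ≤ D * w i a) → i ≤ R a := by
    intro i
    induction i with
    | zero => intro _ a _; exact Nat.zero_le _
    | succ i ih =>
      intro hi a ha
      obtain ⟨a', b', hab, ha', hb', hpos⟩ := pair i (by omega)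
      have h1 := ih (by omega) a' ha'
      have h2 := Rlt a' b' hab
      have h3 : v b' ≤ v a := by
        by_contra hcon
        have h4 := hgap i hi a b' (not_le.1 hcon)
        have h5 := hb' a
        have h6 := ha b'
        rw [hw, hw] at h5 h6
        have hcb : 0 < |c b'| := by
          rw [hw] at hpos
          exact (mul_pos_iff_of_pos_right (hW i b' (by omega))).1 hpos
        have p1 := hW i a (by omega)
        have p2 := hW (i + 1) a hi
        have h7 : |c b'| * (W (i + 1) b' * W i a) ≤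
            |c b'| * (D ^ 2 * (W (i + 1) a * W i b')) := by
          calc |c b'| * (W (i + 1) b' * W i a)
              = (|c b'| * W (i + 1) b') * W i a := by ring
            _ ≤ (D * (|c a| * W (i + 1) a)) * W i a :=
                mul_le_mul_of_nonneg_right h6 p1.le
            _ = (D * W (i + 1) a) * (|c a| * W i a) := by ring
            _ ≤ (D * W (i + 1) a) * (D * (|c b'| * W i b')) :=
                mul_le_mul_of_nonneg_left h5 (by positivity)
            _ = |c b'| * (D ^ 2 * (W (i + 1) a * W i b')) := by ring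
        have h8 := le_of_mul_le_mul_left h7 hcb
        linarith
      have h4 := Rle b' a h3
      omega
  obtain ⟨a, b, hab, ha, hb, -⟩ := pair (N - 1) (by omega)
  have h1 := chain (N - 1) (by omega) a ha
  have h2 := Rlt a b hab
  have h3 : R b < Fintype.card ι := by
    rw [hR, ← card_univ]
    refine card_lt_card ?_
    rw [ssubset_iff_of_subset (filter_subset _ _)]
    exact ⟨b, mem_univ _, by simp⟩
  omega

theorem trop {ι : Type*} [Fintype ι] (v : ι → ℝ) (hv0 : ∀ j, 0 < v j)
    (hinj : Function.Injective v) (N : ℕ) (hN : Fintype.card ι ≤ N) (e : ℕ → ℕ)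
    (E : ℕ → ι → ℝ) (hE : ∀ i j, i < N → |E i j - 1| ≤ 1 / 2) (D : ℝ)
    (hD : 3 * (Fintype.card ι : ℝ) ≤ D)
    (hgap : ∀ i, i + 1 < N → ∀ j j', v j < v j' →
      D ^ 2 * (v j ^ e (i + 1) * v j' ^ e i) < v j' ^ e (i + 1) * v j ^ e i)
    (c : ι → ℝ) (hc : ∀ i < N, ∑ j, c j * v j ^ e i * E i j = 0) : c = 0 :=
  trop_gen v hinj N hN (fun i j => v j ^ e i) (fun _ j _ => pow_pos (hv0 j) _) E hE D hD hgap c hc

/-- in terms of a ratio `ρ` and a gap `g` -/
theorem trop_ratio {ι : Type*} [Fintype ι] (v : ι → ℝ) (hv0 : ∀ j, 0 < v j)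
    (hinj : Function.Injective v) (N : ℕ) (hN : Fintype.card ι ≤ N) (e : ℕ → ℕ)
    (E : ℕ → ι → ℝ) (hE : ∀ i j, i < N → |E i j - 1| ≤ 1 / 2) (ρ : ℝ) (hρ : 1 ≤ ρ)
    (hρv : ∀ j j', v j < v j' → ρ * v j ≤ v j') (g : ℕ)
    (hg : 9 * (Fintype.card ι : ℝ) ^ 2 < ρ ^ g) (he : ∀ i, i + 1 < N → e i + g ≤ e (i + 1))
    (c : ι → ℝ) (hc : ∀ i < N, ∑ j, c j * v j ^ e i * E i j = 0) : c = 0 := by
  refine trop v hv0 hinj N hN e E hE (3 * (Fintype.card ι : ℝ)) le_rfl ?_ c hc
  intro i hi j j' hjj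
  obtain ⟨d, hd⟩ : ∃ d, e (i + 1) = e i + d := ⟨e (i + 1) - e i, by have := he i hi; omega⟩
  have hdg : g ≤ d := by have := he i hi; omega
  have h1 : ρ ^ g ≤ ρ ^ d := pow_le_pow_right₀ hρ hdg
  have h2 : (ρ * v j) ^ d ≤ v j' ^ d :=
    pow_le_pow_left₀ (mul_nonneg (by linarith) (hv0 j).le) (hρv j j' hjj) d
  rw [mul_pow] at h2
  have p1 := pow_pos (hv0 j) (e i)
  have p2 := pow_pos (hv0 j') (e i)
  have p3 := pow_pos (hv0 j) d
  rw [hd, pow_add, pow_add]
  have h3 : (3 * (Fintype.card ι : ℝ)) ^ 2 * v j ^ d < v j' ^ d := by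
    have h4 : (3 * (Fintype.card ι : ℝ)) ^ 2 < ρ ^ d := by nlinarith
    nlinarith
  calc (3 * (Fintype.card ι : ℝ)) ^ 2 * (v j ^ e i * v j ^ d * v j' ^ e i)
      = ((3 * (Fintype.card ι : ℝ)) ^ 2 * v j ^ d) * (v j ^ e i * v j' ^ e i) := by ring
    _ < v j' ^ d * (v j ^ e i * v j' ^ e i) := mul_lt_mul_of_pos_right h3 (mul_pos p1 p2)
    _ = v j' ^ e i * v j' ^ d * v j ^ e i := by ring

/-- the determinant -/
theorem det_ne {k : ℕ} (v B : Fin k → ℝ) (hv0 : ∀ j, 0 < v j) (hinj : Function.Injective v)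
    (hB : ∀ j, B j ≠ 0) (e : Fin k → ℕ) (E : Fin k → Fin k → ℝ) (hE : ∀ i j, |E i j - 1| ≤ 1 / 2)
    (ρ : ℝ) (hρ : 1 ≤ ρ) (hρv : ∀ j j', v j < v j' → ρ * v j ≤ v j') (g : ℕ)
    (hg : 9 * (k : ℝ) ^ 2 < ρ ^ g) (he : ∀ i i' : Fin k, i < i' → e i + g ≤ e i') :
    (Matrix.of fun i j => B j * v j ^ e i * E i j).det ≠ 0 := by
  intro hdet
  obtain ⟨c, hc0, hc⟩ := Matrix.exists_mulVec_eq_zero_iff.2 hdet
  have h := trop_ratio v hv0 hinj k (by simp) (fun i => if h : i < k then e ⟨i, h⟩ else 0)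
    (fun i j => if h : i < k then E ⟨i, h⟩ j else 1) (by
      intro i j hi
      simp only [hi, dite_true]
      exact hE _ _) ρ hρ hρv g (by simpa using hg) (by
      intro i hi
      simp only [hi, (show i < k by omega), dite_true]
      exact he _ _ (by simp [Fin.lt_def])) (fun j => c j * B j) (by
      intro i hi
      have h1 := congrFun hc ⟨i, hi⟩
      simp only [hi, dite_true]
      refine Eq.trans ?_ h1
      simp only [Matrix.mulVec, dotProduct, Matrix.of_apply]
      exact Finset.sum_congr rfl fun j _ => by ring)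
  apply hc0
  funext j
  have h1 := congrFun h j
  simp only [Pi.zero_apply] at h1 ⊢
  exact (mul_eq_zero.1 h1).resolve_right (hB j)

/-- the determinant with general weights -/
theorem det_ne_gen {k : ℕ} (v B : Fin k → ℝ) (hinj : Function.Injective v)
    (hB : ∀ j, B j ≠ 0) (W : Fin k → Fin k → ℝ) (hW : ∀ i j, 0 < W i j)
    (E : Fin k → Fin k → ℝ) (hE : ∀ i j, |E i j - 1| ≤ 1 / 2)
    (hgap : ∀ i i' : Fin k, i < i' → ∀ j j', v j < v j' →
      9 * (k : ℝ) ^ 2 * (W i' j * W i j') < W i' j' * W i j) :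
    (Matrix.of fun i j => B j * W i j * E i j).det ≠ 0 := by
  intro hdet
  obtain ⟨c, hc0, hc⟩ := Matrix.exists_mulVec_eq_zero_iff.2 hdet
  have h := trop_gen v hinj k (by simp) (fun i j => if h : i < k then W ⟨i, h⟩ j else 1)
    (by
      intro i j hi
      simp only [hi, dite_true]
      exact hW _ _)
    (fun i j => if h : i < k then E ⟨i, h⟩ j else 1) (by
      intro i j hi
      simp only [hi, dite_true]
      exact hE _ _) (3 * (k : ℝ)) (by simp) (by
      intro i hi j j' hjj
      simp only [hi, (show i < k by omega), dite_true]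
      have h1 := hgap ⟨i, by omega⟩ ⟨i + 1, hi⟩ (by simp [Fin.lt_def]) j j' hjj
      refine lt_of_le_of_lt (le_of_eq ?_) h1
      ring) (fun j => c j * B j) (by
      intro i hi
      have h1 := congrFun hc ⟨i, hi⟩
      simp only [hi, dite_true]
      refine Eq.trans ?_ h1
      simp only [Matrix.mulVec, dotProduct, Matrix.of_apply]
      exact Finset.sum_congr rfl fun j _ => by ring)
  apply hc0
  funext j
  have h1 := congrFun h j
  simp only [Pi.zero_apply] at h1 ⊢
  exact (mul_eq_zero.1 h1).resolve_right (hB j)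

end Pool.Agent.TRO
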