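import Mathlib
import Pool.Agent.TRO.Trop

/-!
# TRO Mat: the matrix of the main terms is nonsingular
-/

set_option autoImplicit false

namespace Pool.Agent.TRO

open Finset

/-- the `l`-th of the numbers `1, 2, 3, ..` without `j` (`l = 0, 1, ..`) -/
def mm (j l : ℕ) : ℕ := if l + 1 < j then l + 1 else l + 2

theorem mm_pos (j l : ℕ) : 0 < mm j l := by
  unfold mm
  split_ifs <;> omega

theorem mm_ne (j l : ℕ) : mm j l ≠ j := by
  unfold mm
  split_ifs <;> omega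

/-- the main term of the column `j ≥ 1` -/
noncomputable def mainT (k j : ℕ) (x : Fin k → ℕ) : ℝ :=
  ∏ l : Fin k, ((1 / (mm j l : ℝ)) ^ x l * (1 - (j : ℝ) ^ 2 / (mm j l : ℝ) ^ 2))

noncomputable def WW (k j : ℕ) (x : Fin k → ℕ) : ℝ := ∏ l : Fin k, (1 / (mm j l : ℝ)) ^ x l

noncomputable def BB (k j : ℕ) : ℝ := ∏ l : Fin k, (1 - (j : ℝ) ^ 2 / (mm j l : ℝ) ^ 2)

theorem mainT_eq (k j : ℕ) (x : Fin k → ℕ) : mainT k j x = BB k j * WW k j x := by
  unfold mainT BB WW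
  rw [prod_mul_distrib, mul_comm]

theorem WW_pos (k j : ℕ) (x : Fin k → ℕ) : 0 < WW k j x := by
  unfold WW
  refine prod_pos fun l _ => pow_pos ?_ _
  have := mm_pos j l
  positivity

theorem BB_ne (k j : ℕ) : BB k j ≠ 0 := by
  unfold BB
  rw [prod_ne_zero_iff]
  intro l _ h
  have h0 : (0 : ℝ) < mm j l := by exact_mod_cast mm_pos j l
  rw [sub_eq_zero, eq_div_iff (by positivity), one_mul] at h
  have h1 : (mm j l : ℝ) = j := by
    rw [← abs_of_pos h0, ← abs_of_nonneg (Nat.cast_nonneg (α := ℝ) j)]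
    exact abs_eq_abs.2 (sq_eq_sq_iff_eq_or_eq_neg.1 h)
  exact mm_ne j l (by exact_mod_cast h1)

theorem prod_gap {n : ℕ} (b b' : Fin n → ℝ) (hb : ∀ l, 0 < b l) (hbb : ∀ l, b l ≤ b' l)
    (l₀ : Fin n) (ρ C : ℝ) (hρ : 1 ≤ ρ) (h0 : ρ * b l₀ ≤ b' l₀) (G : ℕ) (hG : C < ρ ^ G)
    (Δ : Fin n → ℕ) (hΔ : G ≤ Δ l₀) :
    C * ∏ l, b l ^ Δ l < ∏ l, b' l ^ Δ l := by
  classical
  rw [← mul_prod_erase univ (fun l => b l ^ Δ l) (mem_univ l₀),
    ← mul_prod_erase univ (fun l => b' l ^ Δ l) (mem_univ l₀), ← mul_assoc]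
  have h1 : (ρ * b l₀) ^ Δ l₀ ≤ b' l₀ ^ Δ l₀ :=
    pow_le_pow_left₀ (mul_nonneg (by linarith) (hb l₀).le) h0 _
  rw [mul_pow] at h1
  have h2 : C < ρ ^ Δ l₀ := hG.trans_le (pow_le_pow_right₀ hρ hΔ)
  have h3 := pow_pos (hb l₀) (Δ l₀)
  have h4 : C * b l₀ ^ Δ l₀ < b' l₀ ^ Δ l₀ :=
    lt_of_lt_of_le (mul_lt_mul_of_pos_right h2 h3) h1
  refine mul_lt_mul h4 (prod_le_prod (fun l _ => (pow_pos (hb l) _).le) fun l _ =>
    pow_le_pow_left₀ (hb l).le (hbb l) _) (prod_pos fun l _ => pow_pos (hb l) _) ?_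
  exact pow_nonneg ((hb l₀).le.trans (hbb l₀)) _

theorem mm_succ (j : ℕ) (l : ℕ) : mm j (l + 1) = if l + 2 < j then l + 2 else l + 3 := rfl

/-- the ratio condition: columns `j`, `j' ≥ 2` -/
theorem gapA {n : ℕ} (j j' : ℕ) (hj : 2 ≤ j) (hjj : j < j') (hj' : j' ≤ n + 2)
    (C : ℝ) (G : ℕ) (hG : C < (1 + 1 / ((n : ℝ) + 2)) ^ G) (x y : Fin (n + 1) → ℕ)
    (hxy : ∀ l, l ≠ 0 → x l + G ≤ y l) :
    C * (WW (n + 1) j y * WW (n + 1) j' x) < WW (n + 1) j' y * WW (n + 1) j x := by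
  obtain ⟨Δ, hΔ⟩ : ∃ Δ : Fin n → ℕ, ∀ l, y l.succ = x l.succ + Δ l :=
    ⟨fun l => y l.succ - x l.succ, fun l => by
      have := hxy l.succ (Fin.succ_ne_zero l)
      show y l.succ = x l.succ + (y l.succ - x l.succ)
      omega⟩
  have hΔG : ∀ l, G ≤ Δ l := fun l => by
    have := hxy l.succ (Fin.succ_ne_zero l)
    have := hΔ l
    omega
  have m0 : ∀ i, 2 ≤ i → mm i 0 = 1 := fun i hi => by
    unfold mm
    rw [if_pos (by omega)]
  obtain ⟨b, hb⟩ : ∃ b : ℕ → Fin n → ℝ, ∀ i l, b i l = 1 / (mm i (l + 1) : ℝ) :=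
    ⟨_, fun _ _ => rfl⟩
  have hW : ∀ i, 2 ≤ i → ∀ z : Fin (n + 1) → ℕ,
      WW (n + 1) i z = ∏ l : Fin n, b i l ^ z l.succ := by
    intro i hi z
    unfold WW
    rw [Fin.prod_univ_succ]
    simp only [Fin.val_zero, Fin.val_succ, m0 i hi, Nat.cast_one, div_one, one_pow, one_mul, hb]
  have hbp : ∀ i l, 0 < b i l := fun i l => by
    rw [hb]
    have := mm_pos i (l + 1)
    positivity
  rw [hW j hj, hW j' (by omega), hW j' (by omega), hW j hj]
  simp only [hΔ, pow_add, prod_mul_distrib]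
  have key := prod_gap (b j) (b j') (hbp j) (fun l => by
    rw [hb, hb]
    refine one_div_le_one_div_of_le (by exact_mod_cast mm_pos j' _) ?_
    have h1 : mm j' (l + 1) ≤ mm j (l + 1) := by
      rw [mm_succ, mm_succ]
      split_ifs <;> omega
    exact_mod_cast h1) ⟨j - 2, by omega⟩ (1 + 1 / ((n : ℝ) + 2)) C
    (by
      have : (0 : ℝ) < (n : ℝ) + 2 := by positivity
      have : (0 : ℝ) ≤ 1 / ((n : ℝ) + 2) := by positivity
      linarith) (by
      rw [hb, hb]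
      have e1 : mm j (j - 2 + 1) = j + 1 := by
        rw [mm_succ, if_neg (by omega)]
        omega
      have e2 : mm j' (j - 2 + 1) = j := by
        rw [mm_succ, if_pos (by omega)]
        omega
      simp only [e1, e2]
      have h1 : (0 : ℝ) < j := by
        have : 0 < j := by omega
        exact_mod_cast this
      have h2 : (j : ℝ) ≤ (n : ℝ) + 2 := by
        have : j ≤ n + 2 := by omega
        exact_mod_cast this
      push_cast
      rw [mul_one_div, div_le_div_iff₀ (by positivity) h1, one_mul, add_mul, one_mul]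
      have h3 : 1 / ((n : ℝ) + 2) * j ≤ 1 := by
        rw [one_div_mul_eq_div, div_le_one (by positivity)]
        exact h2
      linarith) G hG Δ (hΔG _)
  have p1 : 0 < ∏ l : Fin n, b j l ^ x l.succ := prod_pos fun l _ => pow_pos (hbp j l) _
  have p2 : 0 < ∏ l : Fin n, b j' l ^ x l.succ := prod_pos fun l _ => pow_pos (hbp j' l) _
  have h5 := mul_lt_mul_of_pos_right key (mul_pos p1 p2)
  calc _ = C * (∏ l, b j l ^ Δ l) *
        ((∏ l : Fin n, b j l ^ x l.succ) * ∏ l : Fin n, b j' l ^ x l.succ) := by ring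
    _ < _ := h5
    _ = _ := by ring

/-- the ratio condition: columns `j ≥ 2` and `1` -/
theorem gapB {n : ℕ} (hn : 1 ≤ n) (j : ℕ) (hj : 2 ≤ j)
    (C : ℝ) (G : ℕ) (hG : C < (1 + 1 / ((n : ℝ) + 2)) ^ G) (x y : Fin (n + 1) → ℕ)
    (hxy : ∀ l, l ≠ 0 → x l + G ≤ y l) (hs : ∑ l, x l = ∑ l, y l) :
    C * (WW (n + 1) j y * WW (n + 1) 1 x) < WW (n + 1) 1 y * WW (n + 1) j x := by
  obtain ⟨Δ, hΔ⟩ : ∃ Δ : Fin n → ℕ, ∀ l, y l.succ = x l.succ + Δ l :=
    ⟨fun l => y l.succ - x l.succ, fun l => by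
      have := hxy l.succ (Fin.succ_ne_zero l)
      show y l.succ = x l.succ + (y l.succ - x l.succ)
      omega⟩
  have hΔG : ∀ l, G ≤ Δ l := fun l => by
    have := hxy l.succ (Fin.succ_ne_zero l)
    have := hΔ l
    omega
  have hx0 : x 0 = y 0 + ∑ l, Δ l := by
    rw [Fin.sum_univ_succ, Fin.sum_univ_succ] at hs
    simp only [hΔ, sum_add_distrib] at hs
    omega
  obtain ⟨b, hb⟩ : ∃ b : ℕ → Fin n → ℝ, ∀ i l, b i l = 1 / (mm i (l + 1) : ℝ) :=
    ⟨_, fun _ _ => rfl⟩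
  have m0 : mm j 0 = 1 := by
    unfold mm
    rw [if_pos (by omega)]
  have m1 : mm 1 0 = 2 := rfl
  have hWj : ∀ z : Fin (n + 1) → ℕ, WW (n + 1) j z = ∏ l : Fin n, b j l ^ z l.succ := by
    intro z
    unfold WW
    rw [Fin.prod_univ_succ]
    simp only [Fin.val_zero, Fin.val_succ, m0, Nat.cast_one, div_one, one_pow, one_mul, hb]
  have hW1 : ∀ z : Fin (n + 1) → ℕ,
      WW (n + 1) 1 z = (1 / 2) ^ z 0 * ∏ l : Fin n, b 1 l ^ z l.succ := by
    intro z
    unfold WW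
    rw [Fin.prod_univ_succ]
    simp only [Fin.val_zero, Fin.val_succ, m1, Nat.cast_ofNat, hb]
  have hbp : ∀ i l, 0 < b i l := fun i l => by
    rw [hb]
    have := mm_pos i (l + 1)
    positivity
  have h43 : ∀ l, (1 + 1 / ((n : ℝ) + 2)) * (1 / 2 * b j l) ≤ b 1 l := by
    intro l
    rw [hb, hb]
    have e1 : mm 1 (l + 1) = l + 3 := rfl
    have e2 : (l : ℕ) + 2 ≤ mm j (l + 1) := by
      rw [mm_succ]
      split_ifs <;> omega
    rw [e1]
    have h1 : 1 / (mm j (l + 1) : ℝ) ≤ 1 / ((l : ℝ) + 2) := by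
      refine one_div_le_one_div_of_le (by positivity) ?_
      exact_mod_cast e2
    have h2 : 1 / ((n : ℝ) + 2) ≤ 1 / 3 := by
      refine one_div_le_one_div_of_le (by norm_num) ?_
      have : (1 : ℝ) ≤ n := by exact_mod_cast hn
      linarith
    have h3 : (0 : ℝ) ≤ 1 / ((n : ℝ) + 2) := by positivity
    have h4 : (0 : ℝ) ≤ 1 / (mm j (l + 1) : ℝ) := by positivity
    calc (1 + 1 / ((n : ℝ) + 2)) * (1 / 2 * (1 / (mm j (l + 1) : ℝ)))
        ≤ (1 + 1 / 3) * (1 / 2 * (1 / ((l : ℝ) + 2))) := by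
          refine mul_le_mul (by linarith) (by linarith) (by positivity) (by norm_num)
      _ ≤ 1 / (((l : ℕ) + 3 : ℕ) : ℝ) := by
          push_cast
          rw [mul_one_div, mul_div_assoc', div_le_div_iff₀ (by positivity) (by positivity)]
          have : (0 : ℝ) ≤ (l : ℝ) := by positivity
          linarith
  have key := prod_gap (fun l => 1 / 2 * b j l) (b 1) (fun l => by
    have := hbp j l
    positivity) (fun l => by
    have h1 := h43 l
    have h2 := hbp j l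
    have h3 : (0 : ℝ) ≤ 1 / ((n : ℝ) + 2) := by positivity
    have h4 : 0 ≤ 1 / ((n : ℝ) + 2) * (1 / 2 * b j l) := by positivity
    show 1 / 2 * b j l ≤ b 1 l
    linarith) ⟨0, hn⟩ (1 + 1 / ((n : ℝ) + 2)) C
    (by
      have : (0 : ℝ) ≤ 1 / ((n : ℝ) + 2) := by positivity
      linarith) (h43 _) G hG Δ (hΔG _)
  simp only [mul_pow, prod_mul_distrib, prod_pow_eq_pow_sum] at key
  rw [hWj, hWj, hW1, hW1, hx0]
  simp only [hΔ, pow_add, prod_mul_distrib]
  have p1 : 0 < ∏ l : Fin n, b j l ^ x l.succ := prod_pos fun l _ => pow_pos (hbp j l) _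
  have p2 : 0 < ∏ l : Fin n, b 1 l ^ x l.succ := prod_pos fun l _ => pow_pos (hbp 1 l) _
  have p3 : (0 : ℝ) < (1 / 2) ^ y 0 := by positivity
  have h5 := mul_lt_mul_of_pos_right key (mul_pos p3 (mul_pos p1 p2))
  calc _ = C * ((1 / 2) ^ (∑ l, Δ l) * ∏ l, b j l ^ Δ l) *
        ((1 / 2) ^ y 0 * ((∏ l : Fin n, b j l ^ x l.succ) * ∏ l : Fin n, b 1 l ^ x l.succ)) := by
        ring
    _ < _ := h5
    _ = _ := by ring

/-- **the matrix**: rows `x i` whose entries `l ≥ 1` grow by `G`, with the same sum -/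
theorem mat (n : ℕ) (hn : 1 ≤ n) : ∃ G : ℕ, ∀ x : Fin (n + 2) → Fin (n + 1) → ℕ,
    (∀ i i', i < i' → ∀ l, l ≠ 0 → x i l + G ≤ x i' l) →
    (∀ i i', ∑ l, x i l = ∑ l, x i' l) →
    ∀ P : Fin (n + 2) → Fin (n + 2) → ℝ,
    (∀ i j : Fin (n + 2), |P i j - mainT (n + 1) (j + 1) (x i)| ≤
      1 / 2 * |mainT (n + 1) (j + 1) (x i)|) →
    (Matrix.of P).det ≠ 0 := by
  obtain ⟨G, hG⟩ := pow_unbounded_of_one_lt (9 * ((n + 2 : ℕ) : ℝ) ^ 2)
    (show (1 : ℝ) < 1 + 1 / ((n : ℝ) + 2) by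
      have : (0 : ℝ) < 1 / ((n : ℝ) + 2) := by positivity
      linarith)
  refine ⟨G, fun x hx hs P hP => ?_⟩
  have hm0 : ∀ i j : Fin (n + 2), mainT (n + 1) (j + 1) (x i) ≠ 0 := fun i j => by
    rw [mainT_eq]
    exact mul_ne_zero (BB_ne _ _) (WW_pos _ _ _).ne'
  have h := det_ne_gen (k := n + 2) (fun j => if j = 0 then ((n : ℝ) + 3) else ((j : ℕ) : ℝ))
    (fun j => BB (n + 1) (j + 1)) (by
      intro a b hab
      simp only at hab
      have ha : ((a : ℕ) : ℝ) < (n : ℝ) + 3 := by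
        have := a.isLt
        have h : (a : ℕ) < n + 3 := by omega
        exact_mod_cast h
      have hb : ((b : ℕ) : ℝ) < (n : ℝ) + 3 := by
        have := b.isLt
        have h : (b : ℕ) < n + 3 := by omega
        exact_mod_cast h
      split_ifs at hab with h1 h2 h2
      · rw [h1, h2]
      · linarith
      · linarith
      · exact Fin.ext (by exact_mod_cast hab)) (fun j => BB_ne _ _)
    (fun i j => WW (n + 1) (j + 1) (x i)) (fun i j => WW_pos _ _ _)
    (fun i j => P i j / mainT (n + 1) (j + 1) (x i)) (by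
      intro i j
      rw [div_sub_one (hm0 i j), abs_div, div_le_iff₀ (abs_pos.2 (hm0 i j))]
      exact hP i j) (by
      intro i i' hii j j' hjj
      have hj' : ((j' : ℕ) : ℝ) < (n : ℝ) + 3 := by
        have := j'.isLt
        have h : (j' : ℕ) < n + 3 := by omega
        exact_mod_cast h
      split_ifs at hjj with h1 h2 h2
      · exact absurd hjj (lt_irrefl _)
      · linarith
      · subst h2
        have hj0 : (j : ℕ) ≠ 0 := fun h => h1 (Fin.ext h)
        exact gapB hn (j + 1) (by omega) _ G hG (x i) (x i') (hx i i' hii) (hs i i')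
      · have h3 : (j : ℕ) < j' := by exact_mod_cast hjj
        have hj0 : (j : ℕ) ≠ 0 := fun h => h1 (Fin.ext h)
        exact gapA (j + 1) (j' + 1) (by omega) (by omega) (by have := j'.isLt; omega) _ G hG
          (x i) (x i') (hx i i' hii))
  have e : (Matrix.of fun i j : Fin (n + 2) => BB (n + 1) (j + 1) * WW (n + 1) (j + 1) (x i) *
      (P i j / mainT (n + 1) (j + 1) (x i))) = Matrix.of P := by
    ext i j
    rw [Matrix.of_apply, Matrix.of_apply, ← mainT_eq, mul_div_cancel₀ _ (hm0 i j)]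
  rw [← e]
  exact h

end Pool.Agent.TRO
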